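import Pool.Agent.U365.POW.E
import Pool.Agent.Results.MP_3e6494_nt.MultiplicativeValues

/-!
# Large central values in every coset for the primes near `s(m)`, `m - φ(m)` and `α m + β f(m)`

Let `s(m)` be the sum of the proper divisors of `m`. For all `2 / 3 < β ≤ 1` and `c, ε > 0` there is an `η` with `0 < η ≤ 1` such
that for every function `G` with steps bounded below by a positive constant and growth at most `v ^ d`, and all `κ ≥ 0` with
`e = d (1 - η) + κ < 1`: for a set of `m` of lower density at least `1 - e`, for EVERY prime `q` with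
`|q - G (s(m))| ≤ s(m) ^ κ` every coset `χ₀ H` of every subgroup `H` with at least `c q ^ β` elements of the group of the Dirichlet
characters modulo `q` contains a character `χ` with `|L(χ, 1/2)| ≥ exp ((√(3 β - 2) - ε) √(log q logloglog q / loglog q))`; and
the same holds for `m - φ(m)`. More precisely this holds for almost all `m` with a divisor `≥ m ^ (e + ρ)` which is a prime or the
product of two different primes, and for the values `g = α m + β f(m)` of multiplicative functions with `f p = p + c` at the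
primes, uniformly in `|α|, |β| ≤ N ^ δ` and with a power saving in the number of the exceptional `m`.

Proof. The number of the exceptional primes is at most `X ^ (1 - η)` (starting theorem). Let `m = k v p` with large primes
`p ≠ v`. Then `g = A v p + B (v + p) + B c`, `A = α k + β f(k)`, `B = β c f(k)`, and so `(A v + B) (A p + B) = A g + B² - A B c`: for
given `g`, `k`, `α`, `β` there are only `N^o(1)` possibilities for `p` and `v`.
-/

set_option autoImplicit false

namespace Pool.Agent.Results.MP_3e6494_nt.AliquotValues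

open Finset
open Pool.Agent.U365.POW (Values Dens values_good_nat values_mono dens_mono)
open Pool.Agent.N733.TG (Expanding)
open Pool.Agent.Results.MP_3e6494_nt.MultiplicativeValues (LargeValues)

/-- For EVERY prime `q` with `|q - G g| ≤ g ^ κ` every coset of every subgroup with at least `c q ^ β` elements of the group of
the Dirichlet characters modulo `q` has a member with a large central value. -/
def Near (β c ε : ℝ) (G : ℕ → ℝ) (κ : ℝ) (g : ℕ) : Prop :=
  ∀ q : ℕ, q.Prime → |(q : ℝ) - G g| ≤ (g : ℝ) ^ κ → LargeValues β c ε q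

/-- **Theorem.** For all `2 / 3 < β ≤ 1` and `c, ε > 0` there is an `η` with `0 < η ≤ 1` such that the following holds. Let `G` have
steps `≥ a > 0` and growth at most `v ^ d`, `κ ≥ 0` and `e = d (1 - η) + κ < 1`. For every `ρ > 0` the property `Near` holds for
the values of similar functions as the aliquot sum (`Values`: for `s(m)`, for `m - φ(m)` and for all `α m + β f(m)`, for almost all
the `m` with a divisor `≥ m ^ (e + ρ)` which is a prime or the product of two different primes), and it holds for `s(m)` and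
`m - φ(m)` for a set of `m` of lower density at least `1 - e`. -/
theorem result : ∀ β : ℝ, 2 / 3 < β → β ≤ 1 → ∀ c : ℝ, 0 < c → ∀ ε : ℝ, 0 < ε → ∃ η : ℝ, 0 < η ∧ η ≤ 1 ∧
      ∀ (G : ℕ → ℝ) (d : ℝ), Expanding G d → ∀ κ : ℝ, 0 ≤ κ → d * (1 - η) + κ < 1 →
        (∀ ρ : ℝ, 0 < ρ → Values (d * (1 - η) + κ + ρ) (Near β c ε G κ)) ∧
          Dens (1 - (d * (1 - η) + κ)) (Near β c ε G κ) := by
  intro β hβ hβ1 c hc ε hε
  obtain ⟨η, hη, Q₀, hQ⟩ := AlmostAllPrimes.result β hβ hβ1 c hc ε hε
  refine ⟨min η 1, lt_min hη one_pos, min_le_right _ _, fun G d hG κ hκ h1 => ?_⟩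
  obtain ⟨h2, h3⟩ := values_good_nat Nat.Prime (LargeValues β c ε) hG (s := 1 - min η 1) (κ := κ)
    (sub_nonneg.2 (min_le_right _ _)) hκ h1 (fun ε' hε' => by
      refine ⟨(Q₀ : ℝ) + 1, fun X hX => ?_⟩
      have hX1 : (1 : ℝ) ≤ X := by exact_mod_cast hX
      have hp1 : 1 ≤ (X : ℝ) ^ (1 - min η 1 + ε') := Real.one_le_rpow hX1 (by
        have := min_le_right η 1
        linarith)
      have hsub : {t : ℕ | 1 ≤ t ∧ t ≤ X ∧ t.Prime ∧ ¬ LargeValues β c ε t} ⊆ Set.Icc 1 X :=
        fun t ht => ⟨ht.1, ht.2.1⟩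
      rcases Nat.lt_or_ge X Q₀ with hlt | hge
      · have h3 := Set.ncard_le_ncard hsub (Set.finite_Icc 1 X)
        rw [Set.ncard_eq_toFinset_card' (Set.Icc 1 X)] at h3
        simp only [Set.toFinset_Icc, Nat.card_Icc, add_tsub_cancel_right] at h3
        have h4 : ({t : ℕ | 1 ≤ t ∧ t ≤ X ∧ t.Prime ∧ ¬ LargeValues β c ε t}.ncard : ℝ) ≤ Q₀ := by
          exact_mod_cast h3.trans hlt.le
        calc _ ≤ (Q₀ : ℝ) := h4
          _ ≤ ((Q₀ : ℝ) + 1) * 1 := by linarith
          _ ≤ _ := mul_le_mul_of_nonneg_left hp1 (by positivity)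
      · obtain ⟨Bad, hB1, hB2⟩ := hQ X hge
        have hsub2 : {t : ℕ | 1 ≤ t ∧ t ≤ X ∧ t.Prime ∧ ¬ LargeValues β c ε t} ⊆ (Bad : Set ℕ) := by
          rintro q ⟨_, h5, h3, h4⟩
          by_contra hcon
          exact h4 fun hne H χ₀ hH => @hB2 q hne h3 h5 hcon H χ₀ hH
        have h3 := Set.ncard_le_ncard hsub2 (Finset.finite_toSet _)
        rw [Set.ncard_coe_finset] at h3
        calc _ ≤ (Bad.card : ℝ) := by exact_mod_cast h3
          _ ≤ (X : ℝ) ^ (1 - η) := hB1
          _ ≤ (X : ℝ) ^ (1 - min η 1 + ε') := Real.rpow_le_rpow_of_exponent_le hX1 (by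
              have := min_le_left η 1
              linarith)
          _ = 1 * (X : ℝ) ^ (1 - min η 1 + ε') := (one_mul _).symm
          _ ≤ _ := mul_le_mul_of_nonneg_right (by
              have : (0 : ℝ) ≤ Q₀ := Nat.cast_nonneg _
              linarith) (by positivity))
  have hm : ∀ g : ℕ, (∀ n : ℕ, 1 ≤ n → n.Prime → |(n : ℝ) - G g| ≤ (g : ℝ) ^ κ → LargeValues β c ε n) →
      Near β c ε G κ g := fun g hg q hq hw => hg q hq.one_lt.le hq hw
  exact ⟨fun ρ hρ => values_mono (h2 ρ hρ) hm, dens_mono h3 le_rfl hm⟩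

end Pool.Agent.Results.MP_3e6494_nt.AliquotValues
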