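import Pool.Agent.U536.DS.F
import Pool.Agent.Results.MP_3e6494_nt.MultiplicativeValues

/-!
# Large central values in every coset for all primes near the integral combinations of two divisors of a value of a
multiplicative function

Let `f` be a positive multiplicative function of at most polynomial growth such that `f p ≤ M p` for the large primes `p`,
with different values at different large primes; for example Euler's function or the sum of the divisors. Let `G` have steps
bounded below by a positive constant and growth at most `v^d`, for example `α v^d`. Let `b < 1` and `0 ≤ c < 2 b - 1`. For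
all `m ≤ N` but `N exp (-(log N)^c)`, for EVERY integer `w ≥ exp ((log N)^b)` of the form `w = u s + v t` with divisors `s`,
`t` of `f(m)` and integers `|u|, |v| ≤ exp ((log N)^θ)`, EVERY prime `q` with `|q - G w| ≤ w^κ` is such that every coset `χ₀
H` of every subgroup `H` with at least `c' q^β` elements of the group of the Dirichlet characters modulo `q` contains a
character `χ` with `|L(χ, 1/2)| ≥ exp ((√(3 β - 2) - ε) √(log q logloglog q / loglog q))`, if `2/3 < β ≤ 1`, `κ ≥ 0` and `d
(1 - η) + κ < 1`, `θ < b` (`η > 0` depends only on `β`, `c'`, `ε > 0`). The integers `w` include all large divisors of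
`f(m)` and the large sums and differences of ANY two divisors of `f(m)`; for Euler's function, those of the orders of any
two units modulo `m`.

Proof. Write `m = k u` with `u` squarefree and composed of primes larger than `N^(1/J)`, `J = (log N)^a`, and `k ≤ exp (4
(log N)^a)`; this is possible for all `m ≤ N` but very few. If `v ∣ f(k) f(u)`, then `v = g v'` with `g ∣ f(k)` and `v' ∣ ∏
f(p)`, and the number of such `u ≤ N / k` is at most `N / (k v')` times `(log N)^O(J)` times the number `τ_J(v')` of the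
ordered factorizations of `v'` into `J` factors. Take for `v` the least common multiple of `s` and `t`: the sum of `1 / [s,
t]` over the pairs `s, t ≤ X` with `u s + v t = w` is at most `4 U (1 + log X) τ(w) / w` if `|u|, |v| ≤ U`; the inequality
`τ_J^q ≤ τ_K` for `K ≥ J^q` and Hölder's inequality bound the sum over the pairs with exceptional `w`. The integers of the
hand-in `CommonFactors` of this page have a large common factor with `f(m)`; the sums and differences of two divisors of
`f(m)` have in general none. The file `MultiplicativeValues` of the starting library treats the integers `w = f(m)` only,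
with `N / (log N)^U` exceptions.
-/

set_option autoImplicit false

namespace Pool.Agent.Results.MP_3e6494_nt.DivisorSums

open Finset
open Pool.Agent.N733.TG (LM Expanding lm_totient lm_sigma expanding_pow)
open Pool.Agent.U536.DS (Comb comb_good_nat comb_pm comb_orders)
open Pool.Agent.Results.MP_3e6494_nt.MultiplicativeValues (LargeValues)

/-- **Large central values in every coset for all primes near the integral combinations of two divisors of a value of a
multiplicative function.** Let `f` be multiplicative and positive, of at most polynomial growth, with `f p ≤ M p` at the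
large primes, and injective there. Let `G` have steps `≥ a > 0` and growth at most `v^d`. Let `b < 1` and `0 ≤ c < 2 b - 1`,
`2/3 < β ≤ 1`, `κ ≥ 0` and `d (1 - η) + κ < 1`, `θ < b` (`η > 0` depends only on `β`, `c'`, `ε > 0`). For all large `N`, for
all `m ≤ N` but `N exp (-(log N)^c)`, for EVERY integer `w ≥ exp ((log N)^b)` of the form `w = u s + v t` with divisors `s`,
`t` of `f(m)` and integers `|u|, |v| ≤ exp ((log N)^θ)`, EVERY prime `q` with `|q - G w| ≤ w^κ` is such that every coset `χ₀
H` of every subgroup `H` with at least `c' q^β` elements of the group of the Dirichlet characters modulo `q` contains a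
character `χ` with `|L(χ, 1/2)| ≥ exp ((√(3 β - 2) - ε) √(log q logloglog q / loglog q))`. All the sums and differences `≥
exp ((log N)^b)` of two divisors of `f(m)` are such integers `w`, and for Euler's function those of the orders of two units
modulo `m`. Euler's function and the sum of the divisors are examples of `f`, and `α v^d` with `α > 0`, `d ≥ 1` is an
example of `G`. -/
theorem result :
    (∀ β : ℝ, 2 / 3 < β → β ≤ 1 → ∀ c : ℝ, 0 < c → ∀ ε : ℝ, 0 < ε → ∃ η : ℝ, 0 < η ∧ η ≤ 1 ∧
      ∀ f : ℕ → ℕ, LM f → ∀ (G : ℕ → ℝ) (d : ℝ), Expanding G d → ∀ κ θ b₁ c₁ : ℝ, 0 ≤ κ → d * (1 - η) + κ < 1 → θ < b₁ → b₁ < 1 → 0 ≤ c₁ → c₁ < 2 * b₁ - 1 →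
      ∃ N₀ : ℕ, ∀ N : ℕ, N₀ ≤ N →
      ({m : ℕ | 1 ≤ m ∧ m ≤ N ∧ ¬ ∀ w : ℕ, Comb f b₁ θ N m w → ∀ q : ℕ, q.Prime → |(q : ℝ) - G w| ≤ (w : ℝ) ^ κ →
        LargeValues β c ε q}.ncard : ℝ) ≤ N * Real.exp (-(Real.log N ^ c₁))) ∧
    (LM Nat.totient ∧ LM (fun m => ∑ d ∈ m.divisors, d)) ∧
    (∀ α d : ℝ, 0 < α → 1 ≤ d → Expanding (fun v => α * (v : ℝ) ^ d) d) ∧
    (∀ (f : ℕ → ℕ) (b θ : ℝ) (N m s t : ℕ), s ∣ f m → t ∣ f m →
      (Real.exp (Real.log N ^ b) ≤ ((s + t : ℕ) : ℝ) → Comb f b θ N m (s + t)) ∧
      (Real.exp (Real.log N ^ b) ≤ ((s - t : ℕ) : ℝ) → Comb f b θ N m (s - t)) ∧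
      (Real.exp (Real.log N ^ b) ≤ (s : ℝ) → Comb f b θ N m s)) ∧
    ∀ (b θ : ℝ) (N m : ℕ) (x y : (ZMod m)ˣ),
      (Real.exp (Real.log N ^ b) ≤ ((orderOf x + orderOf y : ℕ) : ℝ) → Comb Nat.totient b θ N m (orderOf x + orderOf y)) ∧
      (Real.exp (Real.log N ^ b) ≤ ((orderOf x - orderOf y : ℕ) : ℝ) → Comb Nat.totient b θ N m (orderOf x - orderOf y)) := by
  refine ⟨fun β hβ hβ1 c hc ε hε => ?_, ⟨lm_totient, lm_sigma⟩, fun α d hα hd => expanding_pow hα hd, fun f b θ N m s t hs ht => comb_pm hs ht,
    fun b θ N m x y => comb_orders x y⟩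
  obtain ⟨η, hη, Q₀, hQ⟩ := AlmostAllPrimes.result β hβ hβ1 c hc ε hε
  refine ⟨min η 1, lt_min hη one_pos, min_le_right _ _, fun f hf G d hG κ θ b₁ c₁ hκ h1 hθ hb hc₁ hcb => ?_⟩
  obtain ⟨N₀, hN₀⟩ := comb_good_nat Nat.Prime (LargeValues β c ε) hf hG (s := 1 - min η 1) (κ := κ)
    (sub_nonneg.2 (min_le_right _ _)) hκ h1 hθ hb hc₁ hcb (fun ε' hε' => by
      refine ⟨(Q₀ : ℝ) + 1, fun X hX => ?_⟩
      have hX1 : (1 : ℝ) ≤ X := by exact_mod_cast hX
      have hp1 : 1 ≤ (X : ℝ) ^ (1 - min η 1 + ε') := Real.one_le_rpow hX1 (by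
        have := min_le_right η 1
        linarith)
      have hsub : {t : ℕ | 1 ≤ t ∧ t ≤ X ∧ t.Prime ∧ ¬ LargeValues β c ε t} ⊆ Set.Icc 1 X :=
        fun t ht => ⟨ht.1, ht.2.1⟩
      rcases Nat.lt_or_ge X Q₀ with hlt | hge
      · have h3 := Set.ncard_le_ncard hsub (Set.finite_Icc 1 X)
        rw [Set.ncard_eq_toFinset_card' (Set.Icc 1 X)] at h3
        simp only [Set.toFinset_Icc, Nat.card_Icc, add_tsub_cancel_right] at h3
        have h4 : ({t : ℕ | 1 ≤ t ∧ t ≤ X ∧ t.Prime ∧ ¬ LargeValues β c ε t}.ncard : ℝ) ≤ Q₀ := by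
          exact_mod_cast h3.trans hlt.le
        calc _ ≤ (Q₀ : ℝ) := h4
          _ ≤ ((Q₀ : ℝ) + 1) * 1 := by linarith
          _ ≤ _ := mul_le_mul_of_nonneg_left hp1 (by positivity)
      · obtain ⟨Bad, hB1, hB2⟩ := hQ X hge
        have hsub2 : {t : ℕ | 1 ≤ t ∧ t ≤ X ∧ t.Prime ∧ ¬ LargeValues β c ε t} ⊆ (Bad : Set ℕ) := by
          rintro q ⟨_, h5, h3, h4⟩
          by_contra hcon
          exact h4 fun hne H χ₀ hH => @hB2 q hne h3 h5 hcon H χ₀ hH
        have h3 := Set.ncard_le_ncard hsub2 (Finset.finite_toSet _)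
        rw [Set.ncard_coe_finset] at h3
        calc _ ≤ (Bad.card : ℝ) := by exact_mod_cast h3
          _ ≤ (X : ℝ) ^ (1 - η) := hB1
          _ ≤ (X : ℝ) ^ (1 - min η 1 + ε') := Real.rpow_le_rpow_of_exponent_le hX1 (by
              have := min_le_left η 1
              linarith)
          _ = 1 * (X : ℝ) ^ (1 - min η 1 + ε') := (one_mul _).symm
          _ ≤ _ := mul_le_mul_of_nonneg_right (by
              have : (0 : ℝ) ≤ Q₀ := Nat.cast_nonneg _
              linarith) (by positivity))
  refine ⟨N₀, fun N hN => le_trans (le_of_eq ?_) (hN₀ N hN)⟩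
  congr 2
  ext m
  simp only [Set.mem_ofPred_eq]
  have : ∀ w : ℕ, (∀ q : ℕ, q.Prime → |(q : ℝ) - G w| ≤ (w : ℝ) ^ κ → LargeValues β c ε q) ↔
      ∀ q : ℕ, 1 ≤ q → q.Prime → |(q : ℝ) - G w| ≤ (w : ℝ) ^ κ → LargeValues β c ε q := fun w =>
    ⟨fun h q _ => h q, fun h q hq => h q hq.one_lt.le hq⟩
  simp only [this]

end Pool.Agent.Results.MP_3e6494_nt.DivisorSums
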