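import Pool.Agent.U405.RS.F
import Pool.Agent.Results.MP_3e6494_nt.AlmostAllPrimes

/-!
# Large central values in every coset for all primes near values of `f` at thin sets of arguments

Let `f` be a positive multiplicative function of at most polynomial growth which for each `a ≥ 1` is injective at the powers
`p ^ a` of the large primes and at most `M p ^ a` there; for example Euler's function or the sum of the divisors. Let `2 / 3 < β ≤ 1` and `c, ε > 0`. There is an `η > 0`, which does not depend on `f`, such that for all `α > 0`, `d ≥ 1` and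
`κ ≥ 0`, with `e = d (1 - η) + κ`, for EVERY prime `q` with `|q - α f(v)^d| ≤ f(v)^κ` every coset of every subgroup with at
least `c q ^ β` elements of the group of the Dirichlet characters modulo `q` contains a character with a large central value, for
almost all `v` (with a saving of any power of the logarithm) in each of these sets:

* the values of any integer polynomial without repeated roots, of degree `< 1 / e`;
* the shifted primes `p + a`, `a` any integer, if `e < 1`;
* the intervals `(x, x + y]`, `x^τ ≤ y ≤ x`, for every `τ > e`, `τ ≤ 1`.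

For instance this holds for all primes `q` near `φ(p - 1)`, or near `σ(p + 1)`, for almost all primes `p`; and for almost all
`v` in the intervals of length `x^(1 - η/2)`.

Proof. Own tool `Pool.Agent.U405.RS`: let `S` be a set of at least `N^(θ + δ)` integers up to `N` with at most
`B g^ω(k) |S| / k` multiples of `k` for every `k ≤ N^δ`, and let `W` have at most `C X^θ` elements up to `X`. Then `f(m) ∈ W` for at
most `|S| / (log N)^U` of the `m` in `S`. For this write `m = k w` with `k` composed of the primes `≤ z = N^(1 / J)`, `J` a small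
multiple of `log log N`. By Rankin's method with the weights `g^ω(k)` one has `k ≤ N^η` for most `m`; and `w` has at most `J`
prime factors and exponents `≤ J`, so that `w` is determined by `f(w)` up to `(J τ(f(w)) + 1)^J = N^o(1)` possibilities. The three
kinds of sets satisfy the hypothesis: for polynomials because `P` has at most `g` zeros modulo every prime power (lifting of
zeros by the identity `U P + V P' = R`), for shifted primes by the Brun-Titchmarsh inequality (library). The exceptional
primes are at most `X^(1 - η)` by the starting theorem `AlmostAllPrimes` of this problem.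
-/

set_option autoImplicit false

namespace Pool.Agent.Results.MP_3e6494_nt.SparseArguments

open Finset
open Pool.Agent.N733.TG (Expanding expanding_pow)
open Pool.Agent.U405.RS (PM Sparse sparse_nat examples)

/-- every coset of every subgroup with at least `c q ^ β` elements of the group of the Dirichlet characters modulo `q` has a
member with a large central value (with the constant `√(3 β - 2) - ε`) -/
def LargeValues (β c ε : ℝ) (q : ℕ) : Prop :=
  ∀ _ : NeZero q, ∀ (H : Subgroup (DirichletCharacter ℂ q)) (χ₀ : DirichletCharacter ℂ q),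
    c * (q : ℝ) ^ β ≤ (Nat.card H : ℝ) →
    ∃ ψ ∈ H, Real.exp ((Real.sqrt (3 * β - 2) - ε) *
      Real.sqrt (Real.log q * Real.log (Real.log (Real.log q)) / Real.log (Real.log q))) ≤
        ‖DirichletCharacter.LFunction (χ₀ * ψ) (1 / 2)‖

/-- `LargeValues` holds for all primes `q` with `|q - G v| ≤ v ^ κ` -/
def Clear (β c ε : ℝ) (G : ℕ → ℝ) (κ : ℝ) (v : ℕ) : Prop :=
  ∀ q : ℕ, q.Prime → |(q : ℝ) - G v| ≤ (v : ℝ) ^ κ → LargeValues β c ε q

/-- **Large central values in every coset for the primes near `G (f v)`, `v` in thin sets.** For all `2 / 3 < β ≤ 1` and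
`c, ε > 0` there is an `η` with `0 < η ≤ 1` such that for every `f` in the class `PM`, every `G` with steps `≥ const > 0` and
growth at most `v^d`, all `κ ≥ 0` and `U` the following property holds in the sense `Sparse e f`, `e = d (1 - η) + κ`: for EVERY
prime `q` with `|q - G v| ≤ v^κ` every coset `χ₀ H` of every subgroup `H` with at least `c q ^ β` elements of the group of the
Dirichlet characters modulo `q` contains a character `χ` with
`|L(χ, 1/2)| ≥ exp ((√(3 β - 2) - ε) √(log q logloglog q / loglog q))`. (`Sparse e f`: with a saving of `(log x)^U` it holds at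
`f v` for almost all `v` among the positive values of every integer polynomial without repeated roots of degree `< 1 / e`; among
the shifted primes `p + a` for every `a`, if `e < 1`; and in all intervals `(x, x + y]`, `x^τ ≤ y ≤ x`, `e < τ ≤ 1`.) Euler's
function and the sum of the divisors are in the class, and `α v^d` with `α > 0`, `d ≥ 1` is an example of `G`. -/
theorem result :
    (∀ β : ℝ, 2 / 3 < β → β ≤ 1 → ∀ c : ℝ, 0 < c → ∀ ε : ℝ, 0 < ε → ∃ η : ℝ, 0 < η ∧ η ≤ 1 ∧
      ∀ f : ℕ → ℕ, PM f → ∀ (G : ℕ → ℝ) (d : ℝ), Expanding G d → ∀ κ : ℝ, 0 ≤ κ → ∀ U : ℕ,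
      Sparse (d * (1 - η) + κ) f (Clear β c ε G κ) U) ∧
    (PM Nat.totient ∧ PM (fun m => ∑ d ∈ m.divisors, d) ∧ PM (fun m => m)) ∧
    ∀ α d : ℝ, 0 < α → 1 ≤ d → Expanding (fun v => α * (v : ℝ) ^ d) d := by
  refine ⟨fun β hβ hβ1 c hc ε hε => ?_, examples, fun α d hα hd => expanding_pow hα hd⟩
  obtain ⟨η, hη, Q₀, hQ⟩ := AlmostAllPrimes.result β hβ hβ1 c hc ε hε
  refine ⟨min η 1, lt_min hη one_pos, min_le_right _ _, fun f hf G d hG κ hκ U => ?_⟩
  have h := sparse_nat Nat.Prime (LargeValues β c ε) hf hG (s := 1 - min η 1) (κ := κ)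
    (sub_nonneg.2 (min_le_right _ _)) hκ (fun ε' hε' => by
      refine ⟨(Q₀ : ℝ) + 1, fun X hX => ?_⟩
      have hX1 : (1 : ℝ) ≤ X := by exact_mod_cast hX
      have hp1 : 1 ≤ (X : ℝ) ^ (1 - min η 1 + ε') := Real.one_le_rpow hX1 (by
        have := min_le_right η 1
        linarith)
      have hsub : {t : ℕ | 1 ≤ t ∧ t ≤ X ∧ t.Prime ∧ ¬ LargeValues β c ε t} ⊆ Set.Icc 1 X :=
        fun t ht => ⟨ht.1, ht.2.1⟩
      rcases Nat.lt_or_ge X Q₀ with hlt | hge
      · have h3 := Set.ncard_le_ncard hsub (Set.finite_Icc 1 X)
        rw [Set.ncard_eq_toFinset_card' (Set.Icc 1 X)] at h3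
        simp only [Set.toFinset_Icc, Nat.card_Icc, add_tsub_cancel_right] at h3
        have h4 : ({t : ℕ | 1 ≤ t ∧ t ≤ X ∧ t.Prime ∧ ¬ LargeValues β c ε t}.ncard : ℝ) ≤ Q₀ := by
          exact_mod_cast h3.trans hlt.le
        calc _ ≤ (Q₀ : ℝ) := h4
          _ ≤ ((Q₀ : ℝ) + 1) * 1 := by linarith
          _ ≤ _ := mul_le_mul_of_nonneg_left hp1 (by positivity)
      · obtain ⟨Bad, hB1, hB2⟩ := hQ X hge
        have hsub2 : {t : ℕ | 1 ≤ t ∧ t ≤ X ∧ t.Prime ∧ ¬ LargeValues β c ε t} ⊆ (Bad : Set ℕ) := by
          rintro q ⟨_, h5, h3, h4⟩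
          by_contra hcon
          exact h4 fun hne H χ₀ hH => @hB2 q hne h3 h5 hcon H χ₀ hH
        have h3 := Set.ncard_le_ncard hsub2 (Finset.finite_toSet _)
        rw [Set.ncard_coe_finset] at h3
        calc _ ≤ (Bad.card : ℝ) := by exact_mod_cast h3
          _ ≤ (X : ℝ) ^ (1 - η) := hB1
          _ ≤ (X : ℝ) ^ (1 - min η 1 + ε') := Real.rpow_le_rpow_of_exponent_le hX1 (by
              have := min_le_left η 1
              linarith)
          _ = 1 * (X : ℝ) ^ (1 - min η 1 + ε') := (one_mul _).symm
          _ ≤ _ := mul_le_mul_of_nonneg_right (by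
              have : (0 : ℝ) ≤ Q₀ := Nat.cast_nonneg _
              linarith) (by positivity)) U
  exact h.imp (fun v hv q hq hc => hv q hq.one_lt.le hq hc)

end Pool.Agent.Results.MP_3e6494_nt.SparseArguments
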